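import Mathlib
import Pool.Agent.Q273.TR.Stm
import Pool.Agent.H510R2.Div
import Pool.Agent.H813R3.Voj.Rad

/-!
# Project TR (helper273), job CNT2: the sum over the classes modulo a squarefree polynomial
-/

set_option autoImplicit false

namespace Pool.Agent.Q79.TR

open Polynomial Finset Q273.TR

/-! ### Algebra -/

lemma Pv_coeff {s : ℕ} (u : Fin (s + 1) → ℤ) (j : ℕ) :
    (Pv u).coeff j = if h : j < s + 1 then u ⟨j, h⟩ else 0 := by
  unfold Pv Pf
  rw [finsetSum_coeff]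
  simp only [coeff_C_mul, coeff_X_pow]
  by_cases h : j < s + 1
  · rw [dif_pos h, Finset.sum_eq_single (⟨j, h⟩ : Fin (s + 1))]
    · simp
    · intro b _ hb
      have hb' : j ≠ (b : ℕ) := fun hh => hb (Fin.ext hh.symm)
      simp [hb']
    · simp
  · rw [dif_neg h]
    refine Finset.sum_eq_zero fun b _ => ?_
    have hb := b.2
    have hb' : j ≠ (b : ℕ) := by omega
    simp [hb']

lemma Pv_natDegree {s : ℕ} (u : Fin (s + 1) → ℤ) : (Pv u).natDegree ≤ s := by
  rw [natDegree_le_iff_coeff_eq_zero]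
  intro j hj
  rw [Pv_coeff, dif_neg (by omega)]

lemma Pv_last {s : ℕ} (u : Fin (s + 1) → ℤ) : (Pv u).coeff s = u (Fin.last s) := by
  rw [Pv_coeff, dif_pos (Nat.lt_succ_self s)]
  rfl

lemma rs_bound (G : ℤ[X]) (q s : ℕ) : ∃ A : ℕ, 1 ≤ A ∧ ∀ (T : ℕ) (u : Fin (s + 1) → ℤ), 1 ≤ T →
    (∀ i, |u i| ≤ T) → (rs G q s u).natAbs ≤ A * T ^ (s + q) := by
  obtain ⟨B, hB1, hB⟩ : ∃ B : ℕ, 1 ≤ B ∧ ∀ j, (G.coeff j).natAbs ≤ B := by
    refine ⟨(G.support.sup fun j => (G.coeff j).natAbs) + 1, by omega, fun j => ?_⟩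
    by_cases hj : j ∈ G.support
    · exact (Finset.le_sup (f := fun j => (G.coeff j).natAbs) hj).trans (by omega)
    · rw [notMem_support_iff.mp hj]
      simp
  refine ⟨(s + q).factorial * B ^ (s + q), ?_, ?_⟩
  · exact Nat.mul_pos (Nat.factorial_pos _) (pow_pos hB1 _)
  · intro T u hT hu
    have h1 : ∀ j, |(Pv u).coeff j| ≤ ((B * T : ℕ) : ℤ) := by
      intro j
      rw [Pv_coeff]
      have h2 : (T : ℤ) ≤ ((B * T : ℕ) : ℤ) := by exact_mod_cast Nat.le_mul_of_pos_left T hB1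
      by_cases h : j < s + 1
      · rw [dif_pos h]
        exact (hu _).trans h2
      · rw [dif_neg h]
        simp only [abs_zero]
        positivity
    have h1' : ∀ j, |G.coeff j| ≤ ((B * T : ℕ) : ℤ) := by
      intro j
      have h3 : |G.coeff j| ≤ (B : ℤ) := by
        rw [← Int.natCast_natAbs]
        exact_mod_cast hB j
      have h4 : (B : ℤ) ≤ ((B * T : ℕ) : ℤ) := by exact_mod_cast Nat.le_mul_of_pos_right B hT
      exact h3.trans h4
    have h0 : (0 : ℤ) ≤ ((B * T : ℕ) : ℤ) := by positivity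
    have h := Matrix.det_le (A := sylvester (Pv u) G s q) (abv := AbsoluteValue.abs)
      (x := ((B * T : ℕ) : ℤ)) (by
        intro i j
        rw [AbsoluteValue.abs_apply]
        induction j using Fin.addCases with
        | left j =>
          simp only [sylvester, Matrix.of_apply, Fin.addCases_left]
          split_ifs
          · exact h1' _
          · simpa using h0
        | right j =>
          simp only [sylvester, Matrix.of_apply, Fin.addCases_right]
          split_ifs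
          · exact h1 _
          · simpa using h0)
    rw [AbsoluteValue.abs_apply, Fintype.card_fin] at h
    have h5 : ((rs G q s u).natAbs : ℤ) ≤ (((s + q).factorial * B ^ (s + q) * T ^ (s + q) : ℕ) : ℤ) := by
      rw [Int.natCast_natAbs]
      unfold rs resultant
      refine h.trans (le_of_eq ?_)
      rw [nsmul_eq_mul]
      push_cast
      ring
    exact_mod_cast h5

lemma mem_VG (G : ℤ[X]) (q s : ℕ) (w : Fin (s + 1) → ℤ) : w ∈ VG G q s ↔
    (G.map (Int.castRingHom ℚ) ∣ (Pv w).map (Int.castRingHom ℚ) ∧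
    (G.natDegree < q → w (Fin.last s) = 0)) := Iff.rfl

lemma rs_mul (g H : ℤ[X]) (q s : ℕ) (h1 : H.natDegree ≤ q)
    (u : Fin (s + 1) → ℤ) : rs (g * H) (q + g.natDegree) s u = rs g g.natDegree s u * rs H q s u := by
  unfold rs
  obtain ⟨k, rfl⟩ := Nat.exists_eq_add_of_le h1
  have e : H.natDegree + k + g.natDegree = (g.natDegree + H.natDegree) + k := by ring
  rw [e, resultant_add_right_deg _ _ _ _ _ natDegree_mul_le,
    resultant_mul_right _ _ _ _ (Pv_natDegree u),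
    resultant_add_right_deg _ _ _ _ _ le_rfl]
  ring

lemma VG_mul (g H : ℤ[X]) (q s : ℕ) (hg : g ≠ 0) (hH : H ≠ 0)
    (hs : Squarefree ((g * H).map (Int.castRingHom ℚ))) (w : Fin (s + 1) → ℤ)
    (h1 : w ∈ VG g g.natDegree s) (h2 : w ∈ VG H q s) : w ∈ VG (g * H) (q + g.natDegree) s := by
  rw [mem_VG] at *
  refine ⟨?_, ?_⟩
  · rw [Polynomial.map_mul] at hs ⊢
    have h3 := (squarefree_mul_iff.mp hs).1
    rw [isRelPrime_iff_isCoprime] at h3
    exact h3.mul_dvd h1.1 h2.1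
  · intro h
    refine h2.2 ?_
    rw [natDegree_mul hg hH] at h
    omega

/-! ### Counting -/

lemma image_card_le {α β : Type*} [DecidableEq β] (f : α → β) (F : Finset α) (N : ℝ)
    (h : ∀ F' : Finset α, F' ⊆ F → Set.InjOn f F' → (F'.card : ℝ) ≤ N) :
    ((F.image f).card : ℝ) ≤ N := by
  obtain ⟨u, hu, hinj, himg⟩ := Finset.exists_subset_injOn_image_eq_of_surjOn (f := f)
    (F : Set α) (F.image f) (by rw [Finset.coe_image]; exact Set.surjOn_image _ _)
  rw [← himg, Finset.card_image_of_injOn hinj]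
  exact h u (by exact_mod_cast hu) hinj

lemma card_le_mul {M : Type*} [AddCommGroup M] (V1 V2 : Submodule ℤ M) (F : Finset M)
    (N1 N2 : ℝ)
    (h1 : ∀ F' : Finset M, F' ⊆ F → (∀ u ∈ F', ∀ v ∈ F', u ≠ v → u - v ∉ V1) → (F'.card : ℝ) ≤ N1)
    (h2 : ∀ F' : Finset M, F' ⊆ F → (∀ u ∈ F', ∀ v ∈ F', u ≠ v → u - v ∉ V2) → (F'.card : ℝ) ≤ N2)
    (h : ∀ u ∈ F, ∀ v ∈ F, u - v ∈ V1 → u - v ∈ V2 → u = v) : (F.card : ℝ) ≤ N1 * N2 := by
  classical
  have e1 : ((F.image V1.mkQ).card : ℝ) ≤ N1 := by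
    refine image_card_le _ _ _ fun F' hF' hinj => h1 F' hF' ?_
    intro u hu v hv huv hmem
    exact huv (hinj hu hv ((Submodule.Quotient.eq V1).mpr hmem))
  have e2 : ((F.image V2.mkQ).card : ℝ) ≤ N2 := by
    refine image_card_le _ _ _ fun F' hF' hinj => h2 F' hF' ?_
    intro u hu v hv huv hmem
    exact huv (hinj hu hv ((Submodule.Quotient.eq V2).mpr hmem))
  have hinj : Set.InjOn (fun u => (V1.mkQ u, V2.mkQ u)) (F : Set M) := by
    intro u hu v hv huv
    simp only [Prod.mk.injEq] at huv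
    exact h u hu v hv ((Submodule.Quotient.eq V1).mp huv.1) ((Submodule.Quotient.eq V2).mp huv.2)
  have e3 : F.card ≤ (F.image V1.mkQ).card * (F.image V2.mkQ).card := by
    rw [← Finset.card_product, ← Finset.card_image_of_injOn hinj]
    refine Finset.card_le_card ?_
    intro x hx
    rw [Finset.mem_image] at hx
    obtain ⟨u, hu, rfl⟩ := hx
    rw [Finset.mem_product]
    exact ⟨Finset.mem_image_of_mem _ hu, Finset.mem_image_of_mem _ hu⟩
  have e4 : (F.card : ℝ) ≤ ((F.image V1.mkQ).card : ℝ) * ((F.image V2.mkQ).card : ℝ) := by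
    exact_mod_cast e3
  exact e4.trans (mul_le_mul e1 e2 (Nat.cast_nonneg _) (le_trans (Nat.cast_nonneg _) e1))

/-- the number of classes with given resultant -/
def CN (q s : ℕ) (G : ℤ[X]) : Prop := ∀ ε : ℝ, 0 < ε → ∃ C : ℝ, 0 < C ∧
  ∀ (T m : ℕ) (F : Finset (Fin (s + 1) → ℤ)), 1 ≤ T → 1 ≤ m →
    (∀ u ∈ F, (∀ i, |u i| ≤ T) ∧ (rs G q s u).natAbs = m) →
    (∀ u ∈ F, ∀ v ∈ F, u ≠ v → u - v ∉ VG G q s) → (F.card : ℝ) ≤ C * (T : ℝ) ^ ε

lemma CN_of_CNT1 (hC : S_CNT1) (g : ℤ[X]) (s : ℕ) (hg : Irreducible g) (hd : 1 ≤ g.natDegree) :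
    CN g.natDegree s g := by
  intro ε hε
  obtain ⟨C, h⟩ := hC g s hg hd ε hε
  refine ⟨max C 1, lt_of_lt_of_le one_pos (le_max_right _ _), ?_⟩
  intro T m F hT hm h1 h2
  refine (h T m F hT hm h1 h2).trans (mul_le_mul_of_nonneg_right (le_max_left _ _) ?_)
  positivity

lemma step_mul (q s : ℕ) (g H : ℤ[X]) (hg : g ≠ 0) (hH : H ≠ 0)
    (hs : Squarefree ((g * H).map (Int.castRingHom ℚ))) (hq : H.natDegree ≤ q)
    (c1 : CN g.natDegree s g) (c2 : CN q s H) : CN (q + g.natDegree) s (g * H) := by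
  classical
  intro ε hε
  obtain ⟨A, hA1, hA⟩ := rs_bound (g * H) (q + g.natDegree) s
  set D : ℕ := s + (q + g.natDegree) + 1 with hD
  have hDpos : (0 : ℝ) < (D : ℝ) := by positivity
  obtain ⟨C1, hC1, h1⟩ := c1 (ε / 3) (by positivity)
  obtain ⟨C2, hC2, h2⟩ := c2 (ε / 3) (by positivity)
  obtain ⟨C3, hC3, h3⟩ := Pool.Agent.H510R2.divisor_bound (ε / (3 * D)) (by positivity)
  refine ⟨C3 * (A : ℝ) ^ (ε / (3 * D)) * (C1 * C2), by positivity, ?_⟩
  intro T m F hT hm hF hV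
  have hT0 : (0 : ℝ) < (T : ℝ) := by exact_mod_cast hT
  have hT1 : (1 : ℝ) ≤ (T : ℝ) := by exact_mod_cast hT
  rcases F.eq_empty_or_nonempty with rfl | ⟨u0, hu0⟩
  · simp only [Finset.card_empty, Nat.cast_zero]
    positivity
  have hmA : (m : ℝ) ≤ A * (T : ℝ) ^ (D : ℕ) := by
    have h4 := hA T u0 hT (hF u0 hu0).1
    rw [(hF u0 hu0).2] at h4
    have h5 : A * T ^ (s + (q + g.natDegree)) ≤ A * T ^ D :=
      Nat.mul_le_mul_left _ (Nat.pow_le_pow_right hT (by omega))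
    exact_mod_cast h4.trans h5
  have hdm : (m.divisors.card : ℝ) ≤ C3 * (A : ℝ) ^ (ε / (3 * D)) * (T : ℝ) ^ (ε / 3) := by
    refine (h3 m hm).trans ?_
    rw [mul_assoc]
    refine mul_le_mul_of_nonneg_left ?_ hC3.le
    calc (m : ℝ) ^ (ε / (3 * D)) ≤ (A * (T : ℝ) ^ (D : ℕ)) ^ (ε / (3 * D)) :=
          Real.rpow_le_rpow (Nat.cast_nonneg _) hmA (by positivity)
      _ = (A : ℝ) ^ (ε / (3 * D)) * (T : ℝ) ^ (ε / 3) := by
          rw [Real.mul_rpow (Nat.cast_nonneg _) (by positivity), ← Real.rpow_natCast (T : ℝ) D,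
            ← Real.rpow_mul hT0.le]
          congr 2
          field_simp
  have hfib : ∀ a ∈ m.divisors, ((F.filter fun u => (rs g g.natDegree s u).natAbs = a).card : ℝ) ≤
      (C1 * (T : ℝ) ^ (ε / 3)) * (C2 * (T : ℝ) ^ (ε / 3)) := by
    intro a ha
    have ha0 : 1 ≤ a := Nat.pos_of_mem_divisors ha
    have hdvd : a ∣ m := Nat.dvd_of_mem_divisors ha
    refine card_le_mul (VG g g.natDegree s) (VG H q s) _ _ _ ?_ ?_ ?_
    · intro F' hF' hV'
      refine h1 T a F' hT ha0 (fun u hu => ?_) hV'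
      have h6 := Finset.mem_filter.mp (hF' hu)
      exact ⟨(hF u h6.1).1, h6.2⟩
    · intro F' hF' hV'
      refine h2 T (m / a) F' hT (Nat.div_pos (Nat.le_of_dvd hm hdvd) ha0) (fun u hu => ?_) hV'
      have h6 := Finset.mem_filter.mp (hF' hu)
      refine ⟨(hF u h6.1).1, ?_⟩
      have h7 := (hF u h6.1).2
      rw [rs_mul g H q s hq u, Int.natAbs_mul, h6.2] at h7
      rw [← h7]
      exact (Nat.mul_div_cancel_left _ ha0).symm
    · intro u hu v hv h8 h9
      by_contra huv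
      exact hV u (Finset.mem_filter.mp hu).1 v (Finset.mem_filter.mp hv).1 huv
        (VG_mul g H q s hg hH hs _ h8 h9)
  have hsum : F.card = ∑ a ∈ m.divisors,
      (F.filter fun u => (rs g g.natDegree s u).natAbs = a).card := by
    refine Finset.card_eq_sum_card_fiberwise ?_
    intro u hu
    have h7 := (hF u hu).2
    rw [rs_mul g H q s hq u, Int.natAbs_mul] at h7
    rw [Finset.mem_coe, Nat.mem_divisors]
    exact ⟨⟨_, h7.symm⟩, by omega⟩
  calc (F.card : ℝ) = ∑ a ∈ m.divisors,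
        ((F.filter fun u => (rs g g.natDegree s u).natAbs = a).card : ℝ) := by
        rw [hsum]; push_cast; rfl
    _ ≤ ∑ _a ∈ m.divisors, (C1 * (T : ℝ) ^ (ε / 3)) * (C2 * (T : ℝ) ^ (ε / 3)) :=
        Finset.sum_le_sum hfib
    _ = (m.divisors.card : ℝ) * ((C1 * (T : ℝ) ^ (ε / 3)) * (C2 * (T : ℝ) ^ (ε / 3))) := by
        rw [Finset.sum_const, nsmul_eq_mul]
    _ ≤ (C3 * (A : ℝ) ^ (ε / (3 * D)) * (T : ℝ) ^ (ε / 3)) *
        ((C1 * (T : ℝ) ^ (ε / 3)) * (C2 * (T : ℝ) ^ (ε / 3))) :=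
        mul_le_mul_of_nonneg_right hdm (by positivity)
    _ = C3 * (A : ℝ) ^ (ε / (3 * D)) * (C1 * C2) *
        ((T : ℝ) ^ (ε / 3) * (T : ℝ) ^ (ε / 3) * (T : ℝ) ^ (ε / 3)) := by ring
    _ = C3 * (A : ℝ) ^ (ε / (3 * D)) * (C1 * C2) * (T : ℝ) ^ ε := by
        rw [← Real.rpow_add hT0, ← Real.rpow_add hT0]
        congr 2
        ring

lemma step_const (q s : ℕ) (c : ℤ) (H : ℤ[X]) (hc : c ≠ 0) (c2 : CN q s H) :
    CN q s (C c * H) := by
  intro ε hε
  obtain ⟨C2, hC2, h2⟩ := c2 ε hε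
  refine ⟨C2, hC2, ?_⟩
  intro T m F hT hm hF hV
  have hrs : ∀ u : Fin (s + 1) → ℤ, rs (C c * H) q s u = c ^ s * rs H q s u := by
    intro u
    unfold rs
    rw [resultant_C_mul_right]
  have hcs : 1 ≤ (c ^ s).natAbs := Int.natAbs_pos.mpr (pow_ne_zero _ hc)
  rcases F.eq_empty_or_nonempty with rfl | ⟨u0, hu0⟩
  · simp only [Finset.card_empty, Nat.cast_zero]
    positivity
  have hdvd : (c ^ s).natAbs ∣ m := by
    have h7 := (hF u0 hu0).2
    rw [hrs, Int.natAbs_mul] at h7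
    exact ⟨_, h7.symm⟩
  refine h2 T (m / (c ^ s).natAbs) F hT (Nat.div_pos (Nat.le_of_dvd hm hdvd) hcs) ?_ ?_
  · intro u hu
    refine ⟨(hF u hu).1, ?_⟩
    have h7 := (hF u hu).2
    rw [hrs, Int.natAbs_mul] at h7
    rw [← h7]
    exact (Nat.mul_div_cancel_left _ hcs).symm
  · intro u hu v hv huv hmem
    refine hV u hu v hv huv ?_
    rw [mem_VG] at hmem ⊢
    refine ⟨?_, ?_⟩
    · rw [Polynomial.map_mul, Polynomial.map_C]
      have hu' : IsUnit (C ((Int.castRingHom ℚ) c)) := by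
        rw [Polynomial.isUnit_C]
        rw [isUnit_iff_ne_zero]
        simpa using hc
      exact (hu'.mul_left_dvd).mpr hmem.1
    · intro h
      refine hmem.2 ?_
      rwa [natDegree_C_mul hc] at h

lemma base_unit (q s : ℕ) (r : ℤ) (hr : IsUnit r) (hq : q ≤ 1) : CN q s (C r) := by
  classical
  intro ε hε
  refine ⟨2, by norm_num, ?_⟩
  intro T m F hT hm hF hV
  have hT1 : (1 : ℝ) ≤ (T : ℝ) ^ ε := Real.one_le_rpow (by exact_mod_cast hT) hε.le
  have hdvd : ∀ w : Fin (s + 1) → ℤ, (C r : ℤ[X]).map (Int.castRingHom ℚ) ∣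
      (Pv w).map (Int.castRingHom ℚ) := by
    intro w
    rw [Polynomial.map_C]
    refine IsUnit.dvd ?_
    rw [Polynomial.isUnit_C]
    exact hr.map _
  have hcard : F.card ≤ 2 := by
    rcases Nat.lt_or_ge q 1 with h0 | h1
    · have hq0 : q = 0 := by omega
      subst hq0
      have h2 : F.card ≤ 1 := by
        rw [Finset.card_le_one]
        intro u hu v hv
        by_contra huv
        refine hV u hu v hv huv ?_
        rw [mem_VG]
        exact ⟨hdvd _, fun h => absurd h (by omega)⟩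
      omega
    · have hq1 : q = 1 := by omega
      subst hq1
      have hinj : Set.InjOn (fun u : Fin (s + 1) → ℤ => u (Fin.last s)) (F : Set _) := by
        intro u hu v hv huv
        by_contra hne
        refine hV u hu v hv hne ?_
        rw [mem_VG]
        refine ⟨hdvd _, fun _ => ?_⟩
        simp only at huv
        rw [Pi.sub_apply, huv, sub_self]
      rw [← Finset.card_image_of_injOn hinj]
      refine (Finset.card_le_card (t := {(m : ℤ), -(m : ℤ)}) ?_).trans Finset.card_le_two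
      intro x hx
      rw [Finset.mem_image] at hx
      obtain ⟨u, hu, rfl⟩ := hx
      have h7 := (hF u hu).2
      unfold rs at h7
      rw [resultant_C_right, Pv_last, Int.natAbs_mul, Int.natAbs_pow, Int.natAbs_pow,
        Int.isUnit_iff_natAbs_eq.mp hr, one_pow, mul_one, pow_one] at h7
      rw [Finset.mem_insert, Finset.mem_singleton]
      rcases Int.natAbs_eq (u (Fin.last s)) with h8 | h8
      · left
        rw [h8, h7]
      · right
        rw [h8, h7]
  have h9 : (F.card : ℝ) ≤ 2 := by exact_mod_cast hcard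
  nlinarith

theorem CN_all (hC : S_CNT1) (s : ℕ) (G : ℤ[X]) : ∀ q : ℕ, IsDiv q G → CN q s G := by
  induction G using WfDvdMonoid.induction_on_irreducible with
  | zero =>
    intro q hq
    exact absurd hq.1 (by rw [Polynomial.map_zero]; exact not_squarefree_zero)
  | unit u hu =>
    intro q hq
    obtain ⟨r, hr, rfl⟩ := Polynomial.isUnit_iff.mp hu
    refine base_unit q s r hr ?_
    have := hq.2.2
    rw [natDegree_C] at this
    omega
  | mul a i ha hi ih =>
    intro q hq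
    rcases Nat.eq_zero_or_pos i.natDegree with h0 | h1
    · obtain ⟨c, hc⟩ : ∃ c : ℤ, i = C c := ⟨_, eq_C_of_natDegree_eq_zero h0⟩
      subst hc
      have hc0 : c ≠ 0 := by
        rintro rfl
        exact hi.ne_zero C_0
      refine step_const q s c a hc0 (ih q ?_)
      obtain ⟨h1, h2, h3⟩ := hq
      rw [natDegree_C_mul hc0] at h2 h3
      refine ⟨?_, h2, h3⟩
      rw [Polynomial.map_mul] at h1
      exact (squarefree_mul_iff.mp h1).2.2
    · obtain ⟨h2, h3, h4⟩ := hq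
      rw [natDegree_mul hi.ne_zero ha] at h3 h4
      obtain ⟨q', rfl⟩ : ∃ q', q = q' + i.natDegree := ⟨q - i.natDegree, by omega⟩
      refine step_mul q' s i a hi.ne_zero ha h2 (by omega) (CN_of_CNT1 hC i s hi h1) (ih q' ?_)
      refine ⟨?_, by omega, by omega⟩
      rw [Polynomial.map_mul] at h2
      exact (squarefree_mul_iff.mp h2).2.2

theorem cnt2 (h : S_CNT1) : S_CNT2 := by
  classical
  intro q s G hG ε hε
  obtain ⟨A, hA1, hA⟩ := rs_bound G q s
  set D : ℕ := s + q + 1 with hD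
  have hDpos : (0 : ℝ) < (D : ℝ) := by positivity
  obtain ⟨C1, hC1, h1⟩ := CN_all h s G q hG (ε / 2) (by positivity)
  obtain ⟨C2, hC2, h2⟩ := Pool.Agent.H813R3.Voj.sum_inv_rho ∅ (δ := ε / (2 * D)) (by positivity)
  refine ⟨C1 * C2 * (A : ℝ) ^ (ε / (2 * D)), ?_⟩
  intro T F hT hF hV
  have hT0 : (0 : ℝ) < (T : ℝ) := by exact_mod_cast hT
  set Y : ℕ := A * T ^ D with hY
  have hY1 : 1 ≤ Y := Nat.mul_pos hA1 (pow_pos hT _)
  have hmap : ∀ u ∈ F, (rs G q s u).natAbs ∈ Finset.Icc 1 Y := by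
    intro u hu
    rw [Finset.mem_Icc]
    refine ⟨Int.natAbs_pos.mpr (hF u hu).2, ?_⟩
    exact (hA T u hT (hF u hu).1).trans
      (Nat.mul_le_mul_left _ (Nat.pow_le_pow_right hT (by omega)))
  have hfib : ∀ m ∈ Finset.Icc 1 Y, (∑ u ∈ F with (rs G q s u).natAbs = m,
      ((rad (rs G q s u) : ℝ))⁻¹) ≤ (C1 * (T : ℝ) ^ (ε / 2)) *
        ((1 : ℝ) / Pool.Agent.H813R3.Voj.rho ∅ (m : ℤ)) := by
    intro m hm
    rw [Finset.mem_Icc] at hm
    have h3 : ∀ u ∈ F.filter (fun u => (rs G q s u).natAbs = m), ((rad (rs G q s u) : ℝ))⁻¹ =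
        (1 : ℝ) / Pool.Agent.H813R3.Voj.rho ∅ (m : ℤ) := by
      intro u hu
      rw [Finset.mem_filter] at hu
      unfold rad Pool.Agent.H813R3.Voj.rho
      rw [hu.2, Finset.sdiff_empty, Int.natAbs_natCast, one_div]
    rw [Finset.sum_congr rfl h3, Finset.sum_const, nsmul_eq_mul]
    refine mul_le_mul_of_nonneg_right ?_ (by positivity)
    refine h1 T m _ hT hm.1 ?_ ?_
    · intro u hu
      rw [Finset.mem_filter] at hu
      exact ⟨(hF u hu.1).1, hu.2⟩
    · intro u hu v hv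
      rw [Finset.mem_filter] at hu hv
      exact hV u hu.1 v hv.1
  calc ∑ u ∈ F, ((rad (rs G q s u) : ℝ))⁻¹ = ∑ m ∈ Finset.Icc 1 Y,
        ∑ u ∈ F with (rs G q s u).natAbs = m, ((rad (rs G q s u) : ℝ))⁻¹ :=
        (Finset.sum_fiberwise_of_maps_to hmap _).symm
    _ ≤ ∑ m ∈ Finset.Icc 1 Y, (C1 * (T : ℝ) ^ (ε / 2)) *
        ((1 : ℝ) / Pool.Agent.H813R3.Voj.rho ∅ (m : ℤ)) := Finset.sum_le_sum hfib
    _ = (C1 * (T : ℝ) ^ (ε / 2)) * ∑ m ∈ Finset.Icc 1 Y,
        ((1 : ℝ) / Pool.Agent.H813R3.Voj.rho ∅ (m : ℤ)) := by rw [Finset.mul_sum]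
    _ ≤ (C1 * (T : ℝ) ^ (ε / 2)) * (C2 * (Y : ℝ) ^ (ε / (2 * D))) :=
        mul_le_mul_of_nonneg_left (h2 Y hY1) (by positivity)
    _ = C1 * C2 * (A : ℝ) ^ (ε / (2 * D)) * (T : ℝ) ^ ε := by
        have h5 : (Y : ℝ) ^ (ε / (2 * D)) = (A : ℝ) ^ (ε / (2 * D)) * (T : ℝ) ^ (ε / 2) := by
          rw [hY]
          push_cast
          rw [Real.mul_rpow (Nat.cast_nonneg _) (by positivity), ← Real.rpow_natCast (T : ℝ) D,
            ← Real.rpow_mul hT0.le]
          congr 2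
          field_simp
        rw [h5]
        have h6 : (T : ℝ) ^ ε = (T : ℝ) ^ (ε / 2) * (T : ℝ) ^ (ε / 2) := by
          rw [← Real.rpow_add hT0]
          congr 1
          ring
        rw [h6]
        ring

end Pool.Agent.Q79.TR
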